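import Pool.Agent.W844.DO.Defs

/-!
The scale function of the counterexample is not twice continuously differentiable at `1`.
-/

set_option autoImplicit false

open MeasureTheory Filter Topology Set
open scoped ENNReal

namespace W612.DOS

open Pool.Agent.W844.DO (Csl cv S_ALG S_SING rh Cc)
open Pool.Agent.W844

lemma gam_pos : 0 < Real.Gamma (5 / 4) := Real.Gamma_pos_of_pos (by norm_num)

lemma Eq_max (x : ℝ) : DO.Eq x = (max x 0) ^ ((1 : ℝ) / 4) / Real.Gamma (5 / 4) := by
  unfold DO.Eq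
  split_ifs with h
  · rw [max_eq_left h.le]
  · rw [max_eq_right (not_lt.1 h), Real.zero_rpow (by norm_num), zero_div]

lemma Eq_cont : Continuous DO.Eq := by
  have h : DO.Eq = fun x => (max x 0) ^ ((1 : ℝ) / 4) / Real.Gamma (5 / 4) := funext Eq_max
  rw [h]
  have h1 : Continuous fun x : ℝ => (max x 0) ^ ((1 : ℝ) / 4) :=
    (continuous_id.max continuous_const).rpow_const fun x => Or.inr (by norm_num)
  exact h1.div_const _

lemma Eq_csl : Csl DO.Eq := by
  intro x hx
  unfold DO.Eq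
  rw [if_neg (not_lt.2 hx)]

lemma Eq_nonneg (x : ℝ) : 0 ≤ DO.Eq x := by
  rw [Eq_max]
  exact div_nonneg (Real.rpow_nonneg (le_max_right _ _) _) gam_pos.le

lemma Eq_mono : Monotone DO.Eq := by
  intro x y h
  rw [Eq_max, Eq_max]
  apply div_le_div_of_nonneg_right _ gam_pos.le
  exact Real.rpow_le_rpow (le_max_right _ _) (max_le_max_right 0 h) (by norm_num)

lemma Eq_smooth : ContDiffOn ℝ 2 DO.Eq (Ioi 0) := by
  have h : ContDiffOn ℝ 2 (fun x : ℝ => x ^ ((1 : ℝ) / 4) / Real.Gamma (5 / 4)) (Ioi 0) := by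
    apply ContDiffOn.div_const
    intro x hx
    exact (Real.contDiffAt_rpow_const_of_ne (ne_of_gt hx)).contDiffWithinAt
  apply h.congr
  intro x hx
  unfold DO.Eq
  rw [if_pos (mem_Ioi.1 hx)]

lemma Eq_le_exp (x : ℝ) (hx : 0 ≤ x) : DO.Eq x ≤ Real.exp x / Real.Gamma (5 / 4) := by
  rw [Eq_max, max_eq_left hx]
  apply div_le_div_of_nonneg_right _ gam_pos.le
  have h1 : x ^ ((1 : ℝ) / 4) ≤ (1 + x) ^ ((1 : ℝ) / 4) :=
    Real.rpow_le_rpow hx (by linarith) (by norm_num)
  have h2 : (1 + x) ^ ((1 : ℝ) / 4) ≤ (1 + x) ^ (1 : ℝ) :=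
    Real.rpow_le_rpow_of_exponent_le (by linarith) (by norm_num)
  rw [Real.rpow_one] at h2
  have h3 := Real.add_one_le_exp x
  linarith

/-- exponential weight -/
noncomputable def wt (β : ℝ) (u : ℝ → ℝ) : ℝ → ℝ := fun x => Real.exp (-(β * x)) * u x

lemma wt_integrable {u : ℝ → ℝ} (hc : Continuous u) (hu : Csl u) {A b β : ℝ}
    (hA : ∀ x, 0 ≤ x → |u x| ≤ A * Real.exp (b * x)) (hβ : b < β) : Integrable (wt β u) := by
  have h1 : IntegrableOn (fun x => A * Real.exp (-((β - b) * x))) (Ioi 0) := by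
    apply Integrable.const_mul
    have := exp_neg_integrableOn_Ioi 0 (show 0 < β - b by linarith)
    refine this.congr (Eventually.of_forall fun x => ?_)
    simp only [neg_mul]
  have hcw : Continuous (wt β u) := by
    unfold wt
    exact (Real.continuous_exp.comp (continuous_const.mul continuous_id).neg).mul hc
  have h2 : IntegrableOn (wt β u) (Ioi 0) := by
    refine Integrable.mono' h1 hcw.aestronglyMeasurable ?_
    filter_upwards [ae_restrict_mem measurableSet_Ioi] with x hx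
    unfold wt
    rw [Real.norm_eq_abs, abs_mul, abs_of_pos (Real.exp_pos _)]
    have h3 := mul_le_mul_of_nonneg_left (hA x (le_of_lt hx)) (Real.exp_pos (-(β * x))).le
    refine h3.trans (le_of_eq ?_)
    rw [mul_left_comm, ← Real.exp_add]
    congr 2
    ring
  rw [← integrableOn_univ, ← Iic_union_Ioi (a := (0 : ℝ))]
  refine IntegrableOn.union ?_ h2
  refine (integrableOn_zero).congr_fun ?_ measurableSet_Iic
  intro x hx
  unfold wt
  rw [hu x hx, mul_zero]

lemma wt_csl {u : ℝ → ℝ} (hu : Csl u) (β : ℝ) : Csl (wt β u) := by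
  intro x hx
  unfold wt
  rw [hu x hx, mul_zero]

lemma wt_smooth {u : ℝ → ℝ} (hu : ContDiffOn ℝ 2 u (Ioi 0)) (β : ℝ) :
    ContDiffOn ℝ 2 (wt β u) (Ioi 0) := by
  unfold wt
  apply ContDiffOn.mul _ hu
  apply ContDiff.contDiffOn
  fun_prop

lemma cv_wt (u v : ℝ → ℝ) (β x : ℝ) : cv u v x = Real.exp (β * x) * cv (wt β u) (wt β v) x := by
  unfold cv
  rw [← integral_const_mul]
  congr 1
  ext y
  unfold wt
  have h : Real.exp (β * x) * (Real.exp (-(β * y)) * Real.exp (-(β * (x - y)))) = 1 := by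
    rw [← Real.exp_add, ← Real.exp_add]
    rw [show β * x + (-(β * y) + -(β * (x - y))) = 0 by ring, Real.exp_zero]
  calc u y * v (x - y) = (Real.exp (β * x) * (Real.exp (-(β * y)) * Real.exp (-(β * (x - y)))))
        * (u y * v (x - y)) := by rw [h, one_mul]
    _ = _ := by ring

lemma cv_smooth (hALG : S_ALG) {u v : ℝ → ℝ} (huc : Continuous u) (hvc : Continuous v)
    (hu : Csl u) (hv : Csl v) {A b A' b' : ℝ}
    (hA : ∀ x, 0 ≤ x → |u x| ≤ A * Real.exp (b * x))
    (hA' : ∀ x, 0 ≤ x → |v x| ≤ A' * Real.exp (b' * x))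
    (hus : ContDiffOn ℝ 2 u (Ioi 0)) (hvs : ContDiffOn ℝ 2 v (Ioi 0)) :
    ContDiffOn ℝ 2 (cv u v) (Ioi 0) := by
  obtain ⟨β, h1, h2⟩ : ∃ β : ℝ, b < β ∧ b' < β :=
    ⟨max b b' + 1, by have := le_max_left b b'; linarith, by have := le_max_right b b'; linarith⟩
  have h := hALG 2 (wt β u) (wt β v) (wt_csl hu β) (wt_csl hv β) (wt_integrable huc hu hA h1)
    (wt_integrable hvc hv hA' h2) (by exact_mod_cast wt_smooth hus β)
    (by exact_mod_cast wt_smooth hvs β)
  have h3 : cv u v = fun x => Real.exp (β * x) * cv (wt β u) (wt β v) x := funext fun x =>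
    cv_wt u v β x
  rw [h3]
  apply ContDiffOn.mul
  · apply ContDiff.contDiffOn
    fun_prop
  · exact_mod_cast h

lemma cv_csl {u v : ℝ → ℝ} (hu : Csl u) (hv : Csl v) : Csl (cv u v) := by
  intro x hx
  unfold cv
  have h : ∀ y, u y * v (x - y) = 0 := by
    intro y
    by_cases hy : y ≤ 0
    · rw [hu y hy, zero_mul]
    · rw [hv (x - y) (by push Not at hy; linarith), mul_zero]
  simp [h]

lemma cv_Icc {u v : ℝ → ℝ} (hu : Csl u) (hv : Csl v) (x : ℝ) :
    cv u v x = ∫ y in Icc 0 x, u y * v (x - y) := by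
  unfold cv
  symm
  apply setIntegral_eq_integral_of_forall_compl_eq_zero
  intro y hy
  by_cases h0 : y ≤ 0
  · rw [hu y h0, zero_mul]
  · rw [hv (x - y) _, mul_zero]
    by_contra hcon
    apply hy
    push Not at h0 hcon
    exact ⟨h0.le, by linarith⟩

/-- A twice differentiable function which vanishes on `(0, 1]` is `O(t²)` at `1`. -/
lemma small_of_smooth {G : ℝ → ℝ} (hG : ContDiffOn ℝ 2 G (Ioi 0))
    (h0 : ∀ x, 0 < x → x ≤ 1 → G x = 0) : ∀ᶠ t in 𝓝[>] (0 : ℝ), |G (1 + t)| ≤ t ^ 2 := by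
  have hop : IsOpen (Ioi (0 : ℝ)) := isOpen_Ioi
  have e2 : (2 : WithTop ℕ∞) = 1 + 1 := by norm_num
  rw [e2, contDiffOn_succ_iff_deriv_of_isOpen hop] at hG
  obtain ⟨hGd, -, hG1⟩ := hG
  have hG1d : DifferentiableOn ℝ (deriv G) (Ioi 0) := hG1.differentiableOn (by norm_num)
  have hz : ∀ x, 0 < x → x < 1 → deriv G x = 0 := by
    intro x hx hx1
    have : G =ᶠ[𝓝 x] fun _ => (0 : ℝ) := by
      filter_upwards [Ioo_mem_nhds hx hx1] with y hy using h0 y hy.1 hy.2.le
    rw [this.deriv_eq]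
    simp
  have h1m : (1 : ℝ) ∈ Ioi (0 : ℝ) := by norm_num
  have hcont : ContinuousAt (deriv G) 1 := (hG1d 1 h1m).continuousWithinAt.continuousAt
    (hop.mem_nhds h1m)
  have hz1 : deriv G 1 = 0 := by
    have hl : Tendsto (deriv G) (𝓝[<] 1) (𝓝 (deriv G 1)) := hcont.tendsto.mono_left
      nhdsWithin_le_nhds
    have hl0 : Tendsto (deriv G) (𝓝[<] 1) (𝓝 0) := by
      apply tendsto_const_nhds.congr'
      filter_upwards [Ioo_mem_nhdsLT (show (0 : ℝ) < 1 by norm_num)] with x hx
      exact (hz x hx.1 hx.2).symm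
    exact tendsto_nhds_unique hl hl0
  have hd1 : HasDerivAt (deriv G) (deriv (deriv G) 1) 1 :=
    ((hG1d 1 h1m).differentiableAt (hop.mem_nhds h1m)).hasDerivAt
  have hdd : deriv (deriv G) 1 = 0 := by
    have h2 : HasDerivWithinAt (deriv G) 0 (Iic 1) 1 := by
      have h3 : HasDerivWithinAt (fun _ : ℝ => (0 : ℝ)) 0 (Iic 1) 1 := hasDerivWithinAt_const _ _ _
      apply h3.congr_of_eventuallyEq _ hz1
      filter_upwards [self_mem_nhdsWithin, nhdsWithin_le_nhds (Ioi_mem_nhds
        (show (0 : ℝ) < 1 by norm_num))] with x hx hx0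
      rcases lt_or_eq_of_le (mem_Iic.1 hx) with h | h
      · exact hz x hx0 h
      · rw [h]; exact hz1
    exact (uniqueDiffWithinAt_Iic 1).eq_deriv _ hd1.hasDerivWithinAt h2
  rw [hdd] at hd1
  have hsmall : ∀ᶠ s in 𝓝 (0 : ℝ), |deriv G (1 + s)| ≤ |s| := by
    have h2 := hd1.isLittleO
    have h3 := h2.def (show (0 : ℝ) < 1 by norm_num)
    have h4 : Tendsto (fun s : ℝ => 1 + s) (𝓝 0) (𝓝 1) := by
      have : Continuous fun s : ℝ => 1 + s := by fun_prop
      have h5 := this.tendsto 0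
      rwa [add_zero] at h5
    filter_upwards [h4.eventually h3] with s hs
    simpa [hz1] using hs
  obtain ⟨δ, hδ, hδs⟩ := Metric.eventually_nhds_iff.1 hsmall
  filter_upwards [Ioo_mem_nhdsGT hδ] with t ht
  have hconv : Convex ℝ (Icc (1 : ℝ) (1 + t)) := convex_Icc _ _
  have hb : ∀ x ∈ Icc (1 : ℝ) (1 + t), ‖deriv G x‖ ≤ t := by
    intro x hx
    have h2 := hδs (y := x - 1) (by
      rw [Real.dist_eq, sub_zero, abs_of_nonneg (by linarith [hx.1])]
      linarith [hx.2, ht.2])
    rw [add_sub_cancel, abs_of_nonneg (show 0 ≤ x - 1 by linarith [hx.1])] at h2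
    rw [Real.norm_eq_abs]
    linarith [hx.2]
  have h6 := hconv.norm_image_sub_le_of_norm_deriv_le (f := G) (C := t) (x := 1) (y := 1 + t)
    (fun x hx => (hGd x (show 0 < x by linarith [hx.1])).differentiableAt
      (hop.mem_nhds (show 0 < x by linarith [hx.1]))) hb
    ⟨le_rfl, by linarith [ht.1]⟩ ⟨by linarith [ht.1], le_rfl⟩
  rw [h0 1 (by norm_num) le_rfl, sub_zero, add_sub_cancel_left, Real.norm_eq_abs,
    Real.norm_eq_abs, abs_of_pos ht.1] at h6
  rw [sq]
  exact h6

theorem t_sing (hALG : S_ALG) : S_SING := by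
  intro W A b hC hWc hW hWb hWeq hWs
  obtain ⟨H, hH⟩ : ∃ H, H = cv DO.Eq W := ⟨_, rfl⟩
  rw [← hH] at hWeq
  have hΓ := gam_pos
  have hHs : ContDiffOn ℝ 2 H (Ioi 0) := by
    rw [hH]
    refine cv_smooth hALG Eq_cont hWc Eq_csl hW (A := 1 / Real.Gamma (5 / 4)) (b := 1)
      (fun x hx => ?_) (fun x _ => hWb x) Eq_smooth hWs
    rw [abs_of_nonneg (Eq_nonneg x), one_mul, one_div, inv_mul_eq_div]
    exact Eq_le_exp x hx
  have hHc : Csl H := by rw [hH]; exact cv_csl Eq_csl hW
  obtain ⟨G, hG⟩ : ∃ G, G = cv rh H := ⟨_, rfl⟩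
  rw [← hG] at hWeq
  have hGz : ∀ x, x ≤ 1 → G x = 0 := by
    intro x hx
    rw [hG]
    unfold cv
    have h : ∀ y, rh y * H (x - y) = 0 := by
      intro y
      by_cases hy : 1 < y
      · rw [hHc (x - y) (by linarith), mul_zero]
      · unfold rh
        rw [if_neg (fun h => hy h.1), zero_mul]
    simp [h]
  have hGs : ContDiffOn ℝ 2 G (Ioi 0) := by
    have h1 : ContDiffOn ℝ 2 (fun x => DO.Eq x + 4 * H x - Cc * W x) (Ioi 0) :=
      (Eq_smooth.add (contDiffOn_const.mul hHs)).sub (contDiffOn_const.mul hWs)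
    apply h1.congr
    intro x _
    have := hWeq x
    linarith
  have hGsmall := small_of_smooth hGs (fun x _ hx => hGz x hx)
  -- bound for W on [0,1]
  obtain ⟨B, hB⟩ := isCompact_Icc.exists_bound_of_continuousOn (s := Icc (0 : ℝ) 1)
    hWc.continuousOn
  have hB0 : 0 ≤ B := (norm_nonneg _).trans (hB 0 ⟨le_rfl, by norm_num⟩)
  have hHi : ∀ x, IntegrableOn (fun y => DO.Eq y * W (x - y)) (Icc 0 x) := fun x =>
    (Eq_cont.mul (hWc.comp (continuous_const.sub continuous_id))).continuousOn.integrableOn_compact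
      isCompact_Icc
  have hHx : ∀ x, H x = ∫ y in Icc 0 x, DO.Eq y * W (x - y) := fun x => by
    rw [hH]; exact cv_Icc Eq_csl hW x
  have hHle : ∀ x, 0 < x → x ≤ 1 → |H x| ≤ B * x * DO.Eq x := by
    intro x hx hx1
    rw [hHx]
    have h1 := norm_setIntegral_le_of_norm_le_const (μ := volume) (s := Icc 0 x)
      (f := fun y => DO.Eq y * W (x - y)) (C := DO.Eq x * B) (by
        rw [Real.volume_Icc]; exact ENNReal.ofReal_lt_top) (by
        intro y hy
        rw [norm_mul, Real.norm_eq_abs (DO.Eq y), abs_of_nonneg (Eq_nonneg y)]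
        exact mul_le_mul (Eq_mono hy.2) (hB (x - y) ⟨by linarith [hy.2], by linarith [hy.1]⟩)
          (norm_nonneg _) (Eq_nonneg x))
    rw [Real.norm_eq_abs, measureReal_def, Real.volume_Icc, sub_zero,
      ENNReal.toReal_ofReal hx.le] at h1
    refine h1.trans (le_of_eq ?_)
    ring
  obtain ⟨x0, hx0, hx01, hx0B⟩ : ∃ x0 : ℝ, 0 < x0 ∧ x0 ≤ 1 ∧ 8 * B * x0 ≤ 1 := by
    refine ⟨1 / (8 * (B + 1)), by positivity, ?_, ?_⟩
    · rw [div_le_one (by positivity)]; linarith
    · rw [mul_one_div, div_le_one (by positivity)]; linarith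
  have hWlow : ∀ x, 0 < x → x ≤ x0 → DO.Eq x / (2 * Cc) ≤ W x := by
    intro x hx hxx
    rw [div_le_iff₀ (by positivity)]
    have h1 := hWeq x
    rw [hGz x (by linarith), sub_zero] at h1
    have h2 := (abs_le.1 (hHle x hx (by linarith))).1
    have h3 := Eq_nonneg x
    have h4 : 8 * B * x ≤ 1 := le_trans (mul_le_mul_of_nonneg_left hxx (by positivity)) hx0B
    nlinarith
  have hWnn : ∀ x, x ≤ x0 → 0 ≤ W x := by
    intro x hx
    rcases le_or_gt x 0 with h | h
    · rw [hW x h]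
    · exact le_trans (div_nonneg (Eq_nonneg x) (by positivity)) (hWlow x h hx)
  obtain ⟨κ, hκ⟩ : ∃ κ, κ = 1 / (8 * Cc * Real.Gamma (5 / 4) ^ 2) := ⟨_, rfl⟩
  have hκ0 : 0 < κ := by rw [hκ]; positivity
  have hHlow : ∀ x, 0 < x → x ≤ x0 → κ * x * √x ≤ H x := by
    intro x hx hxx
    rw [hHx]
    have hsub : Icc (x / 4) (3 * x / 4) ⊆ Icc 0 x := Icc_subset_Icc (by linarith) (by linarith)
    have h1 : ∫ y in Icc (x / 4) (3 * x / 4), DO.Eq (x / 4) * (DO.Eq (x / 4) / (2 * Cc))
        ≤ ∫ y in Icc 0 x, DO.Eq y * W (x - y) := by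
      refine le_trans (b := ∫ y in Icc (x / 4) (3 * x / 4), DO.Eq y * W (x - y)) ?_ ?_
      · apply setIntegral_mono_on (continuousOn_const.integrableOn_compact isCompact_Icc)
          ((hHi x).mono_set hsub) measurableSet_Icc
        intro y hy
        have h2 : DO.Eq (x / 4) / (2 * Cc) ≤ W (x - y) := by
          refine le_trans ?_ (hWlow (x - y) (by linarith [hy.2]) (by linarith [hy.1]))
          exact div_le_div_of_nonneg_right (Eq_mono (by linarith [hy.2])) (by positivity)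
        exact mul_le_mul (Eq_mono hy.1) h2 (div_nonneg (Eq_nonneg _) (by positivity))
          (Eq_nonneg _)
      · apply setIntegral_mono_set (hHi x)
        · filter_upwards [ae_restrict_mem measurableSet_Icc] with y hy
          exact mul_nonneg (Eq_nonneg y) (hWnn (x - y) (by linarith [hy.1]))
        · exact hsub.eventuallyLE
    refine le_trans (le_of_eq ?_) h1
    rw [setIntegral_const, measureReal_def, Real.volume_Icc,
      ENNReal.toReal_ofReal (by linarith), smul_eq_mul, Eq_max, max_eq_left (by linarith), hκ]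
    have h5 : ((x / 4) ^ ((1 : ℝ) / 4)) * ((x / 4) ^ ((1 : ℝ) / 4)) = √x / 2 := by
      rw [← Real.rpow_add (by linarith), show (1 : ℝ) / 4 + 1 / 4 = 1 / 2 by norm_num,
        ← Real.sqrt_eq_rpow, Real.sqrt_div hx.le]
      congr 1
      rw [show (4 : ℝ) = 2 ^ 2 by norm_num, Real.sqrt_sq (by norm_num)]
    calc 1 / (8 * Cc * Real.Gamma (5 / 4) ^ 2) * x * √x
        = (x / 2) * (√x / 2) / (2 * Cc * Real.Gamma (5 / 4) ^ 2) := by field_simp; ring
      _ = (x / 2) * (((x / 4) ^ ((1 : ℝ) / 4)) * ((x / 4) ^ ((1 : ℝ) / 4)))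
          / (2 * Cc * Real.Gamma (5 / 4) ^ 2) := by rw [h5]
      _ = _ := by field_simp; ring
  have hHnn : ∀ x, x ≤ x0 → 0 ≤ H x := by
    intro x hx
    rcases le_or_gt x 0 with h | h
    · rw [hHc x h]
    · exact le_trans (by positivity) (hHlow x h hx)
  -- lower bound for G
  have hGlow : ∀ t, 0 < t → t < x0 → κ * (t / 2) ^ 2 * √(t / 2) * (t / 2) ^ (-(3 : ℝ) / 4)
      ≤ G (1 + t) := by
    intro t ht htx
    have h1 : G (1 + t) = ∫ y in Ioo 1 (1 + t), (y - 1) ^ (-(3 : ℝ) / 4) * H (1 + t - y) := by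
      rw [hG]
      unfold cv
      rw [← setIntegral_eq_integral_of_forall_compl_eq_zero (s := Ioo 1 (1 + t))]
      · apply setIntegral_congr_fun measurableSet_Ioo
        intro y hy
        simp only
        unfold rh
        rw [if_pos ⟨hy.1, by linarith [hy.2]⟩]
      · intro y hy
        by_cases h2 : 1 < y
        · rw [hHc (1 + t - y) _, mul_zero]
          by_contra hcon
          push Not at hcon
          exact hy ⟨h2, by linarith⟩
        · unfold rh
          rw [if_neg (fun h => h2 h.1), zero_mul]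
    have hint : IntegrableOn (fun y => (y - 1) ^ (-(3 : ℝ) / 4) * H (1 + t - y))
        (Ioo 1 (1 + t)) := by
      have hr : IntegrableOn (fun y : ℝ => (y - 1) ^ (-(3 : ℝ) / 4)) (Ioo 1 (1 + t)) := by
        have h2 : IntervalIntegrable (fun y : ℝ => y ^ (-(3 : ℝ) / 4)) volume 0 t :=
          intervalIntegral.intervalIntegrable_rpow' (by norm_num)
        have h3 := h2.comp_sub_right 1
        rw [zero_add, add_comm t 1] at h3
        exact ((intervalIntegrable_iff_integrableOn_Ioc_of_le (by linarith)).1 h3).mono_set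
          Ioo_subset_Ioc_self
      refine Integrable.mono' (hr.mul_const (B * DO.Eq 1)) ?_ ?_
      · apply ContinuousOn.aestronglyMeasurable _ measurableSet_Ioo
        apply ContinuousOn.mul
        · apply ContinuousOn.rpow_const (by fun_prop)
          intro y hy
          left
          have := hy.1
          linarith
        · exact hHs.continuousOn.comp (by fun_prop) (fun y hy => by
            show 0 < 1 + t - y
            linarith [hy.2])
      · filter_upwards [ae_restrict_mem measurableSet_Ioo] with y hy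
        rw [norm_mul, Real.norm_eq_abs, Real.norm_eq_abs,
          abs_of_nonneg (Real.rpow_nonneg (by linarith [hy.1]) _)]
        apply mul_le_mul_of_nonneg_left _ (Real.rpow_nonneg (by linarith [hy.1]) _)
        have h4 := hHle (1 + t - y) (by linarith [hy.2]) (by linarith [hy.1])
        refine h4.trans ?_
        have h5 : B * (1 + t - y) ≤ B := mul_le_of_le_one_right hB0 (by linarith [hy.1])
        exact mul_le_mul h5 (Eq_mono (by linarith [hy.1])) (Eq_nonneg _) hB0
    have hsub : Ioo 1 (1 + t / 2) ⊆ Ioo 1 (1 + t) := Ioo_subset_Ioo_right (by linarith)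
    rw [h1]
    have h6 : ∫ y in Ioo 1 (1 + t / 2), (t / 2) ^ (-(3 : ℝ) / 4) * (κ * (t / 2) * √(t / 2))
        ≤ ∫ y in Ioo 1 (1 + t), (y - 1) ^ (-(3 : ℝ) / 4) * H (1 + t - y) := by
      refine le_trans (b := ∫ y in Ioo 1 (1 + t / 2), (y - 1) ^ (-(3 : ℝ) / 4) * H (1 + t - y))
        ?_ ?_
      · apply setIntegral_mono_on _ (hint.mono_set hsub) measurableSet_Ioo
        · intro y hy
          have h7 : (t / 2) ^ (-(3 : ℝ) / 4) ≤ (y - 1) ^ (-(3 : ℝ) / 4) :=
            Real.rpow_le_rpow_of_nonpos (by linarith [hy.1]) (by linarith [hy.2]) (by norm_num)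
          have h8 : κ * (t / 2) * √(t / 2) ≤ H (1 + t - y) := by
            refine le_trans ?_ (hHlow (1 + t - y) (by linarith [hy.2]) (by linarith [hy.1]))
            have h9 : √(t / 2) ≤ √(1 + t - y) := Real.sqrt_le_sqrt (by linarith [hy.2])
            exact mul_le_mul (mul_le_mul_of_nonneg_left (by linarith [hy.2]) hκ0.le) h9
              (Real.sqrt_nonneg _) (mul_nonneg hκ0.le (by linarith [hy.2]))
          exact mul_le_mul h7 h8 (by positivity) (Real.rpow_nonneg (by linarith [hy.1]) _)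
        · exact integrableOn_const (by simp)
      · apply setIntegral_mono_set hint
        · filter_upwards [ae_restrict_mem measurableSet_Ioo] with y hy
          exact mul_nonneg (Real.rpow_nonneg (by linarith [hy.1]) _)
            (hHnn _ (by linarith [hy.1]))
        · exact hsub.eventuallyLE
    refine le_trans (le_of_eq ?_) h6
    rw [setIntegral_const, measureReal_def, Real.volume_Ioo,
      ENNReal.toReal_ofReal (by linarith), smul_eq_mul]
    ring
  -- conclusion
  have hlim : Tendsto (fun t : ℝ => 4 * (t / 2) ^ ((1 : ℝ) / 4)) (𝓝[>] 0) (𝓝 0) := by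
    have h1 : ContinuousAt (fun t : ℝ => 4 * (t / 2) ^ ((1 : ℝ) / 4)) 0 := by
      apply ContinuousAt.mul continuousAt_const
      apply ContinuousAt.rpow_const (by fun_prop)
      right
      norm_num
    have h2 := h1.tendsto.mono_left (nhdsWithin_le_nhds (s := Ioi 0))
    simpa using h2
  have hev := (hlim.eventually (gt_mem_nhds hκ0)).and
    (hGsmall.and (Ioo_mem_nhdsGT (show (0 : ℝ) < x0 from hx0)))
  obtain ⟨t, h1, h2, h3⟩ := hev.exists
  have h4 := hGlow t h3.1 h3.2
  have h5 := (le_abs_self _).trans h2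
  have h6 := h4.trans h5
  have hs : 0 < t / 2 := by linarith [h3.1]
  have h7 : t ^ 2 = 4 * (t / 2) ^ 2 := by ring
  rw [h7] at h6
  have h8 : κ * (√(t / 2) * (t / 2) ^ (-(3 : ℝ) / 4)) ≤ 4 := by
    have h9 : 0 < (t / 2) ^ 2 := by positivity
    have h10 : (κ * (√(t / 2) * (t / 2) ^ (-(3 : ℝ) / 4))) * (t / 2) ^ 2 ≤ 4 * (t / 2) ^ 2 := by
      calc _ = κ * (t / 2) ^ 2 * √(t / 2) * (t / 2) ^ (-(3 : ℝ) / 4) := by ring
        _ ≤ _ := h6
    exact le_of_mul_le_mul_right h10 h9
  have h9 : √(t / 2) * (t / 2) ^ (-(3 : ℝ) / 4) * (t / 2) ^ ((1 : ℝ) / 4) = 1 := by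
    rw [Real.sqrt_eq_rpow, ← Real.rpow_add hs, ← Real.rpow_add hs]
    norm_num
  have h10 : 0 < (t / 2) ^ ((1 : ℝ) / 4) := Real.rpow_pos_of_pos hs _
  have h11 : κ ≤ 4 * (t / 2) ^ ((1 : ℝ) / 4) := by
    calc κ = (κ * (√(t / 2) * (t / 2) ^ (-(3 : ℝ) / 4))) * (t / 2) ^ ((1 : ℝ) / 4) := by
          rw [mul_assoc, h9, mul_one]
      _ ≤ _ := mul_le_mul_of_nonneg_right h8 h10.le
  linarith

end W612.DOS
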